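import Pool.Agent.Q214.BH.Stm

/-!
# Borel solution of the reachability gadget
-/

set_option autoImplicit false

namespace Pool.Agent.Q210.BH

open Set Pool.Agent.Q214.BH

/-- a countable separating family -/
theorem exists_sep (X : Type) [MeasurableSpace X] [StandardBorelSpace X] :
    ∃ B : ℕ → Set X, (∀ n, MeasurableSet (B n)) ∧
      ∀ (x : X) (F : Set X), F.Finite → x ∉ F → ∃ n, x ∈ B n ∧ ∀ y ∈ F, y ∉ B n := by
  let _ := upgradeStandardBorel X
  obtain ⟨b, hbc, -, hb⟩ := TopologicalSpace.exists_countable_basis X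
  obtain ⟨B, hB⟩ := (hbc.insert ∅).exists_eq_range (insert_nonempty _ _)
  refine ⟨B, fun n => ?_, fun x F hF hx => ?_⟩
  · have h1 : B n ∈ insert ∅ b := by rw [hB]; exact mem_range_self n
    rcases h1 with h1 | h1
    · rw [h1]
      exact MeasurableSet.empty
    · exact (hb.isOpen h1).measurableSet
  · obtain ⟨V, hV, hxV, hVF⟩ := hb.exists_subset_of_mem_open (show x ∈ Fᶜ from hx)
      hF.isClosed.isOpen_compl
    have h1 : V ∈ range B := by rw [← hB]; exact mem_insert_of_mem _ hV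
    obtain ⟨n, rfl⟩ := h1
    exact ⟨n, hxV, fun y hy hyB => hVF hyB hy⟩

section marker

variable {Γ : Type} [Group Γ] {X : Type} [MulAction Γ X]

/-- the approximations of the set of markers -/
def Ap (q : Γ) (L : ℕ) (B : ℕ → Set X) : ℕ → Set X
  | 0 => ∅
  | k + 1 => Ap q L B k ∪ {x | (x ∈ B k ∧ ∀ j, 0 < j → j < L → q ^ j • x ∉ B k) ∧
      ∀ j, j < L → q ^ j • x ∉ Ap q L B k ∧ q⁻¹ ^ j • x ∉ Ap q L B k}

theorem Ap_succ (q : Γ) (L : ℕ) (B : ℕ → Set X) (k : ℕ) (x : X) : x ∈ Ap q L B (k + 1) ↔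
    x ∈ Ap q L B k ∨ ((x ∈ B k ∧ ∀ j, 0 < j → j < L → q ^ j • x ∉ B k) ∧
      ∀ j, j < L → q ^ j • x ∉ Ap q L B k ∧ q⁻¹ ^ j • x ∉ Ap q L B k) := Iff.rfl

theorem Ap_mono (q : Γ) (L : ℕ) (B : ℕ → Set X) : Monotone (Ap q L B) :=
  monotone_nat_of_le_succ fun _ _ hx => Or.inl hx

theorem Ap_meas [MeasurableSpace X] (hm : ∀ γ : Γ, Measurable fun x : X => γ • x) (q : Γ) (L : ℕ)
    (B : ℕ → Set X) (hB : ∀ k, MeasurableSet (B k)) (k : ℕ) : MeasurableSet (Ap q L B k) := by
  induction k with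
  | zero => exact MeasurableSet.empty
  | succ k ih =>
    refine ih.union ?_
    refine MeasurableSet.inter ((hB k).inter ?_) ?_
    · rw [show (fun x : X => ∀ j, 0 < j → j < L → q ^ j • x ∉ B k) =
        {x : X | ∀ j, 0 < j → j < L → q ^ j • x ∉ B k} from rfl]
      simp only [ofPred_forall]
      exact MeasurableSet.iInter fun j => MeasurableSet.iInter fun _ => MeasurableSet.iInter
        fun _ => (hm _ (hB k)).compl
    · rw [show (fun x : X => ∀ j, j < L → q ^ j • x ∉ Ap q L B k ∧ q⁻¹ ^ j • x ∉ Ap q L B k) =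
        {x : X | ∀ j, j < L → q ^ j • x ∉ Ap q L B k ∧ q⁻¹ ^ j • x ∉ Ap q L B k} from rfl]
      simp only [ofPred_forall]
      exact MeasurableSet.iInter fun j => MeasurableSet.iInter fun _ =>
        (hm _ ih).compl.inter (hm _ ih).compl

theorem Ap_ind (q : Γ) (L : ℕ) (B : ℕ → Set X) (k : ℕ) : ∀ x ∈ Ap q L B k, ∀ j, 0 < j → j < L →
    q ^ j • x ∉ Ap q L B k := by
  induction k with
  | zero => exact fun x hx => absurd hx (notMem_empty x)
  | succ k ih =>
    intro x hx j hj hjL hqx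
    rw [Ap_succ] at hx hqx
    rcases hx with hx | ⟨⟨hx1, hx2⟩, hx3⟩
    · rcases hqx with hqx | ⟨⟨hq1, hq2⟩, hq3⟩
      · exact ih x hx j hj hjL hqx
      · apply (hq3 j hjL).2
        rw [smul_smul, inv_pow, inv_mul_cancel, one_smul]
        exact hx
    · rcases hqx with hqx | ⟨⟨hq1, hq2⟩, hq3⟩
      · exact (hx3 j hjL).1 hqx
      · exact hx2 j hj hjL hq1

/-- Borel sets of markers -/
theorem marker [MeasurableSpace X] [StandardBorelSpace X]
    (hm : ∀ γ : Γ, Measurable fun x : X => γ • x)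
    (hfree : ∀ (γ : Γ) (x : X), γ • x = x → γ = 1) (q : Γ) (hq : ∀ n : ℤ, q ^ n = 1 → n = 0)
    (L : ℕ) (hL : 0 < L) : ∃ D : Set X, MeasurableSet D ∧
      (∀ x ∈ D, ∀ j, 0 < j → j < L → q ^ j • x ∉ D) ∧ ∀ x, ∃ j, j < 2 * L ∧ q ^ j • x ∈ D := by
  obtain ⟨B, hB, hsep⟩ := exists_sep X
  refine ⟨⋃ k, Ap q L B k, MeasurableSet.iUnion fun k => Ap_meas hm q L B hB k, ?_, ?_⟩
  · intro x hx j hj hjL hqx
    rw [mem_iUnion] at hx hqx
    obtain ⟨k, hk⟩ := hx
    obtain ⟨l, hl⟩ := hqx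
    exact Ap_ind q L B (max k l) x (Ap_mono q L B (le_max_left _ _) hk) j hj hjL
      (Ap_mono q L B (le_max_right _ _) hl)
  · intro x
    obtain ⟨y, hy⟩ : ∃ y : X, y = q ^ L • x := ⟨_, rfl⟩
    have hfin : ({z : X | ∃ j, (0 < j ∧ j < L) ∧ z = q ^ j • y}).Finite := by
      refine ((finite_lt_nat L).image fun j => q ^ j • y).subset ?_
      rintro z ⟨j, ⟨_, hj⟩, rfl⟩
      exact ⟨j, hj, rfl⟩
    obtain ⟨k, hk1, hk2⟩ := hsep y _ hfin (by
      rintro ⟨j, ⟨hj, _⟩, h⟩
      have h1 := hfree _ _ h.symm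
      have h2 := hq j (by rw [zpow_natCast]; exact h1)
      omega)
    have hA : y ∈ B k ∧ ∀ j, 0 < j → j < L → q ^ j • y ∉ B k :=
      ⟨hk1, fun j hj hjL => hk2 _ ⟨j, ⟨hj, hjL⟩, rfl⟩⟩
    by_cases hcase : ∀ j, j < L → q ^ j • y ∉ Ap q L B k ∧ q⁻¹ ^ j • y ∉ Ap q L B k
    · refine ⟨L, by omega, ?_⟩
      rw [← hy, mem_iUnion]
      exact ⟨k + 1, Or.inr ⟨hA, hcase⟩⟩
    · push Not at hcase
      obtain ⟨j, hj, hcase⟩ := hcase
      by_cases h1 : q ^ j • y ∈ Ap q L B k
      · refine ⟨j + L, by omega, ?_⟩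
        rw [pow_add, mul_smul, ← hy, mem_iUnion]
        exact ⟨k, h1⟩
      · refine ⟨L - j, by omega, ?_⟩
        rw [mem_iUnion]
        refine ⟨k, ?_⟩
        have h2 := hcase h1
        rw [hy, smul_smul] at h2
        have h3 : q⁻¹ ^ j * q ^ L = q ^ (L - j) := by
          rw [inv_pow, inv_mul_eq_iff_eq_mul, ← pow_add]
          congr 1
          omega
        rwa [h3] at h2

end marker

section main

variable {Γ : Type} [Group Γ] {X : Type} [MulAction Γ X] {n : ℕ}

/-- the set can be reached with exactly `l` moves -/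
def Lv (s : Fin n → Γ) (T : Set X) : ℕ → X → Prop
  | 0, x => x ∈ T
  | l + 1, x => ∃ i, Lv s T l (s i • x)

/-- the distance to the set is `l` -/
def Lev (s : Fin n → Γ) (T : Set X) (l : ℕ) (x : X) : Prop := Lv s T l x ∧ ∀ l' < l, ¬ Lv s T l' x

/-- the set can be reached -/
def Pp (s : Fin n → Γ) (T : Set X) (x : X) : Prop := ∃ l, Lv s T l x

/-- the marks -/
def Ee (s : Fin n → Γ) (T : Set X) (D : ℕ → Set X) (x : X) : Prop := ∃ l, Lev s T l x ∧ x ∈ D l

/-- the move leads to a smaller distance -/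
def QQq (s : Fin n → Γ) (T : Set X) (i : Fin n) (x : X) : Prop :=
  ∃ l, Lev s T (l + 1) x ∧ Lv s T l (s i • x)

/-- the first good move is `i` -/
def Pt (s : Fin n → Γ) (T : Set X) (i : Fin n) (x : X) : Prop :=
  QQq s T i x ∧ ∀ i' < i, ¬ QQq s T i' x

/-- the last mark strictly before `x` is at distance `j + 1` -/
def Fe (q : Γ) (s : Fin n → Γ) (T : Set X) (D : ℕ → Set X) (j : ℕ) (x : X) : Prop :=
  Ee s T D (q⁻¹ ^ (j + 1) • x) ∧ ∀ j' < j, ¬ Ee s T D (q⁻¹ ^ (j' + 1) • x)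

/-- odd distance -/
def Oo (q : Γ) (s : Fin n → Γ) (T : Set X) (D : ℕ → Set X) (x : X) : Prop :=
  ∃ j, Odd j ∧ Fe q s T D j x

/-- at least one mark in the window -/
def K1 (q : Γ) (s : Fin n → Γ) (T : Set X) (D : ℕ → Set X) (x : X) : Prop :=
  ∃ j i a, (Fe q s T D j x ∧ Pt s T i x) ∧ a ≤ j ∧ Ee s T D (s i • q⁻¹ ^ (a + 1) • x)

/-- at least two marks in the window -/
def K2 (q : Γ) (s : Fin n → Γ) (T : Set X) (D : ℕ → Set X) (x : X) : Prop :=
  ∃ j i a b, (Fe q s T D j x ∧ Pt s T i x) ∧ (a < b ∧ b ≤ j) ∧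
    Ee s T D (s i • q⁻¹ ^ (a + 1) • x) ∧ Ee s T D (s i • q⁻¹ ^ (b + 1) • x)

theorem Lev_unique {s : Fin n → Γ} {T : Set X} {l l' : ℕ} {x : X} (h : Lev s T l x)
    (h' : Lev s T l' x) : l = l' := by
  rcases lt_trichotomy l l' with h1 | h1 | h1
  · exact absurd h.1 (h'.2 l h1)
  · exact h1
  · exact absurd h'.1 (h.2 l' h1)

theorem exists_Lev {s : Fin n → Γ} {T : Set X} {x : X} (h : Pp s T x) : ∃ l, Lev s T l x := by
  classical
  exact ⟨Nat.find h, Nat.find_spec h, fun l' hl' => Nat.find_min h hl'⟩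

theorem Pt_unique {s : Fin n → Γ} {T : Set X} {i i' : Fin n} {x : X} (h : Pt s T i x)
    (h' : Pt s T i' x) : i = i' := by
  rcases lt_trichotomy i i' with h1 | h1 | h1
  · exact absurd h.1 (h'.2 i h1)
  · exact h1
  · exact absurd h'.1 (h.2 i' h1)

theorem exists_Pt {s : Fin n → Γ} {T : Set X} {x : X} (h : ∃ i, QQq s T i x) :
    ∃ i, Pt s T i x := by
  obtain ⟨i, hi, hmin⟩ := WellFounded.has_min (wellFounded_lt (α := Fin n)) {i | QQq s T i x} h
  exact ⟨i, hi, fun i' hi' h' => hmin i' h' hi'⟩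

theorem Fe_unique {q : Γ} {s : Fin n → Γ} {T : Set X} {D : ℕ → Set X} {j j' : ℕ} {x : X}
    (h : Fe q s T D j x) (h' : Fe q s T D j' x) : j = j' := by
  rcases lt_trichotomy j j' with h1 | h1 | h1
  · exact absurd h.1 (h'.2 j h1)
  · exact h1
  · exact absurd h'.1 (h.2 j' h1)

/-! ### measurability -/

section meas

variable [MeasurableSpace X]

theorem Lv_meas (hm : ∀ γ : Γ, Measurable fun x : X => γ • x) (s : Fin n → Γ) (T : Set X)
    (hT : MeasurableSet T) (l : ℕ) : Measurable (Lv s T l) := by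
  induction l with
  | zero => exact measurableSet_setOfPred.mp hT
  | succ l ih => exact Measurable.exists fun i => ih.comp (hm (s i))

theorem Lev_meas (hm : ∀ γ : Γ, Measurable fun x : X => γ • x) (s : Fin n → Γ) (T : Set X)
    (hT : MeasurableSet T) (l : ℕ) : Measurable (Lev s T l) :=
  (Lv_meas hm s T hT l).and (Measurable.forall fun l' => Measurable.forall fun _ =>
    (Lv_meas hm s T hT l').not)

theorem Pp_meas (hm : ∀ γ : Γ, Measurable fun x : X => γ • x) (s : Fin n → Γ) (T : Set X)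
    (hT : MeasurableSet T) : Measurable (Pp s T) := Measurable.exists fun l => Lv_meas hm s T hT l

theorem Ee_meas (hm : ∀ γ : Γ, Measurable fun x : X => γ • x) (s : Fin n → Γ) (T : Set X)
    (hT : MeasurableSet T) (D : ℕ → Set X) (hD : ∀ l, MeasurableSet (D l)) :
    Measurable (Ee s T D) := Measurable.exists fun l => (Lev_meas hm s T hT l).and
      (measurableSet_setOfPred.mp (hD l))

theorem Qq_meas (hm : ∀ γ : Γ, Measurable fun x : X => γ • x) (s : Fin n → Γ) (T : Set X)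
    (hT : MeasurableSet T) (i : Fin n) : Measurable (QQq s T i) :=
  Measurable.exists fun l => (Lev_meas hm s T hT (l + 1)).and
    ((Lv_meas hm s T hT l).comp (hm (s i)))

theorem Pt_meas (hm : ∀ γ : Γ, Measurable fun x : X => γ • x) (s : Fin n → Γ) (T : Set X)
    (hT : MeasurableSet T) (i : Fin n) : Measurable (Pt s T i) :=
  (Qq_meas hm s T hT i).and (Measurable.forall fun i' => Measurable.forall fun _ =>
    (Qq_meas hm s T hT i').not)

theorem Fe_meas (hm : ∀ γ : Γ, Measurable fun x : X => γ • x) (q : Γ) (s : Fin n → Γ) (T : Set X)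
    (hT : MeasurableSet T) (D : ℕ → Set X) (hD : ∀ l, MeasurableSet (D l)) (j : ℕ) :
    Measurable (Fe q s T D j) :=
  ((Ee_meas hm s T hT D hD).comp (hm _)).and (Measurable.forall fun _ => Measurable.forall
    fun _ => ((Ee_meas hm s T hT D hD).comp (hm _)).not)

theorem Oo_meas (hm : ∀ γ : Γ, Measurable fun x : X => γ • x) (q : Γ) (s : Fin n → Γ) (T : Set X)
    (hT : MeasurableSet T) (D : ℕ → Set X) (hD : ∀ l, MeasurableSet (D l)) :
    Measurable (Oo q s T D) :=
  Measurable.exists fun j => measurable_const.and (Fe_meas hm q s T hT D hD j)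

theorem K1_meas (hm : ∀ γ : Γ, Measurable fun x : X => γ • x) (q : Γ) (s : Fin n → Γ) (T : Set X)
    (hT : MeasurableSet T) (D : ℕ → Set X) (hD : ∀ l, MeasurableSet (D l)) :
    Measurable (K1 q s T D) :=
  Measurable.exists fun j => Measurable.exists fun i => Measurable.exists fun _ =>
    ((Fe_meas hm q s T hT D hD j).and (Pt_meas hm s T hT i)).and (measurable_const.and
      ((Ee_meas hm s T hT D hD).comp ((hm _).comp (hm _))))

theorem K2_meas (hm : ∀ γ : Γ, Measurable fun x : X => γ • x) (q : Γ) (s : Fin n → Γ) (T : Set X)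
    (hT : MeasurableSet T) (D : ℕ → Set X) (hD : ∀ l, MeasurableSet (D l)) :
    Measurable (K2 q s T D) :=
  Measurable.exists fun j => Measurable.exists fun i => Measurable.exists fun _ =>
    Measurable.exists fun _ =>
    ((Fe_meas hm q s T hT D hD j).and (Pt_meas hm s T hT i)).and (measurable_const.and
      (((Ee_meas hm s T hT D hD).comp ((hm _).comp (hm _))).and
        ((Ee_meas hm s T hT D hD).comp ((hm _).comp (hm _)))))

end meas

/-! ### invariance -/

theorem Lv_q {q : Γ} {s : Fin n → Γ} (hs : ∀ i, Commute q (s i)) {T : Set X}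
    (hT : ∀ x, q • x ∈ T ↔ x ∈ T) (l : ℕ) (x : X) : Lv s T l (q • x) ↔ Lv s T l x := by
  induction l generalizing x with
  | zero => exact hT x
  | succ l ih =>
    have h1 : ∀ i, s i • q • x = q • s i • x := fun i => by
      rw [smul_smul, smul_smul, (hs i).eq]
    change (∃ i, Lv s T l (s i • q • x)) ↔ ∃ i, Lv s T l (s i • x)
    refine exists_congr fun i => ?_
    rw [h1, ih]

theorem Lv_pow {q : Γ} {s : Fin n → Γ} (hs : ∀ i, Commute q (s i)) {T : Set X}
    (hT : ∀ x, q • x ∈ T ↔ x ∈ T) (l j : ℕ) (x : X) : Lv s T l (q⁻¹ ^ j • x) ↔ Lv s T l x := by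
  induction j generalizing x with
  | zero => rw [pow_zero, one_smul]
  | succ j ih =>
    rw [pow_succ, mul_smul, ih, ← Lv_q hs hT l (q⁻¹ • x), smul_inv_smul]

theorem Lev_q {q : Γ} {s : Fin n → Γ} (hs : ∀ i, Commute q (s i)) {T : Set X}
    (hT : ∀ x, q • x ∈ T ↔ x ∈ T) (l : ℕ) (x : X) : Lev s T l (q • x) ↔ Lev s T l x := by
  unfold Lev
  rw [Lv_q hs hT]
  simp only [Lv_q hs hT]

theorem Lev_pow {q : Γ} {s : Fin n → Γ} (hs : ∀ i, Commute q (s i)) {T : Set X}
    (hT : ∀ x, q • x ∈ T ↔ x ∈ T) (l j : ℕ) (x : X) :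
    Lev s T l (q⁻¹ ^ j • x) ↔ Lev s T l x := by
  unfold Lev
  rw [Lv_pow hs hT]
  simp only [Lv_pow hs hT]

theorem Pp_q {q : Γ} {s : Fin n → Γ} (hs : ∀ i, Commute q (s i)) {T : Set X}
    (hT : ∀ x, q • x ∈ T ↔ x ∈ T) (x : X) : Pp s T (q • x) ↔ Pp s T x :=
  exists_congr fun l => Lv_q hs hT l x

theorem Qq_q {q : Γ} {s : Fin n → Γ} (hs : ∀ i, Commute q (s i)) {T : Set X}
    (hT : ∀ x, q • x ∈ T ↔ x ∈ T) (i : Fin n) (x : X) : QQq s T i (q • x) ↔ QQq s T i x := by
  refine exists_congr fun l => ?_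
  have h1 : s i • q • x = q • s i • x := by rw [smul_smul, smul_smul, (hs i).eq]
  rw [Lev_q hs hT, h1, Lv_q hs hT]

theorem Pt_q {q : Γ} {s : Fin n → Γ} (hs : ∀ i, Commute q (s i)) {T : Set X}
    (hT : ∀ x, q • x ∈ T ↔ x ∈ T) (i : Fin n) (x : X) : Pt s T i (q • x) ↔ Pt s T i x := by
  unfold Pt
  rw [Qq_q hs hT]
  simp only [Qq_q hs hT]

theorem Ee_of_Lev {s : Fin n → Γ} {T : Set X} {D : ℕ → Set X} {l : ℕ} {x : X}
    (h : Lev s T l x) : Ee s T D x ↔ x ∈ D l := by
  constructor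
  · rintro ⟨l', h1, h2⟩
    rwa [Lev_unique h h1]
  · exact fun h1 => ⟨l, h, h1⟩

/-- marks in windows -/
theorem window {q : Γ} {s : Fin n → Γ} (hs : ∀ i, Commute q (s i)) {T : Set X}
    (hT : ∀ x, q • x ∈ T ↔ x ∈ T) {D : ℕ → Set X} {l G : ℕ} (hD : ∀ x, ∃ j, j < G ∧ q ^ j • x ∈ D l)
    {x : X} (hx : Lev s T l x) (m : ℕ) : ∃ a, m ≤ a ∧ a < m + G ∧ Ee s T D (q⁻¹ ^ a • x) := by
  obtain ⟨j, hj, hj2⟩ := hD (q⁻¹ ^ (m + G - 1) • x)
  refine ⟨m + G - 1 - j, by omega, by omega, ?_⟩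
  rw [Ee_of_Lev ((Lev_pow hs hT l _ x).mpr hx)]
  have h3 : q ^ j • q⁻¹ ^ (m + G - 1) • x = q⁻¹ ^ (m + G - 1 - j) • x := by
    rw [smul_smul]
    congr 1
    rw [inv_pow, inv_pow, eq_inv_iff_mul_eq_one, mul_assoc, mul_eq_one_iff_eq_inv, mul_inv_rev,
      inv_inv]
    have h4 : q ^ (m + G - 1) = q ^ (m + G - 1 - j) * q ^ j := by
      rw [← pow_add]
      congr 1
      omega
    rw [h4]
    group
  rwa [h3] at hj2

theorem exists_Fe {q : Γ} {s : Fin n → Γ} (hs : ∀ i, Commute q (s i)) {T : Set X}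
    (hT : ∀ x, q • x ∈ T ↔ x ∈ T) {D : ℕ → Set X} {G : ℕ → ℕ}
    (hD : ∀ l x, ∃ j, j < G l ∧ q ^ j • x ∈ D l) {x : X} (hx : Pp s T x) :
    ∃ j, Fe q s T D j x := by
  classical
  obtain ⟨l, hl⟩ := exists_Lev hx
  obtain ⟨a, ha1, ha2, ha3⟩ := window hs hT (hD l) hl 1
  have h : ∃ j, Ee s T D (q⁻¹ ^ (j + 1) • x) := ⟨a - 1, by rwa [Nat.sub_add_cancel ha1]⟩
  exact ⟨Nat.find h, Nat.find_spec h, fun j' hj' => Nat.find_min h hj'⟩

theorem shift (q : Γ) (a : ℕ) (x : X) : q⁻¹ ^ (a + 1) • q • x = q⁻¹ ^ a • x := by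
  rw [pow_succ, mul_smul, inv_smul_smul]

/-- the next point after a mark -/
theorem Fe_zero {q : Γ} {s : Fin n → Γ} {T : Set X} {D : ℕ → Set X} {x : X} (h : Ee s T D x) :
    Fe q s T D 0 (q • x) :=
  ⟨by rw [shift, pow_zero, one_smul]; exact h, fun j' hj' => absurd hj' (Nat.not_lt_zero j')⟩

/-- the next point after another point -/
theorem Fe_succ {q : Γ} {s : Fin n → Γ} {T : Set X} {D : ℕ → Set X} {x : X} {j : ℕ}
    (h : ¬ Ee s T D x) (hj : Fe q s T D j x) : Fe q s T D (j + 1) (q • x) := by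
  refine ⟨by rw [shift]; exact hj.1, fun j' hj' => ?_⟩
  rw [shift]
  cases j' with
  | zero => rw [pow_zero, one_smul]; exact h
  | succ j' => exact hj.2 j' (by omega)

theorem Oo_flip {q : Γ} {s : Fin n → Γ} {T : Set X} {D : ℕ → Set X} {x : X} {j : ℕ}
    (h : ¬ Ee s T D x) (hj : Fe q s T D j x) : Oo q s T D (q • x) ↔ ¬ Oo q s T D x := by
  have h1 := Fe_succ h hj
  constructor
  · rintro ⟨a, ha, ha2⟩ ⟨b, hb, hb2⟩
    have h2 := Fe_unique ha2 h1
    have h3 := Fe_unique hb2 hj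
    subst h2 h3
    exact (Nat.not_odd_iff_even.mpr hb.add_one) ha
  · intro h2
    refine ⟨j + 1, ?_, h1⟩
    rw [Nat.odd_add_one]
    exact fun h3 => h2 ⟨j, h3, hj⟩

/-! ### the counter -/

theorem K1_after {q : Γ} {s : Fin n → Γ} (hs : ∀ i, Commute q (s i)) {T : Set X}
    (hT : ∀ x, q • x ∈ T ↔ x ∈ T) {D : ℕ → Set X} {x : X} {i : Fin n} (hi : Pt s T i x)
    (h : Ee s T D x) : K1 q s T D (q • x) ↔ Ee s T D (s i • x) := by
  have h0 := Fe_zero (q := q) h
  have hi' := (Pt_q hs hT i x).mpr hi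
  constructor
  · rintro ⟨j, i', a, ⟨h1, h2⟩, h3, h4⟩
    have h5 := Fe_unique h1 h0
    have h6 := Pt_unique h2 hi'
    subst h5 h6
    have h7 : a = 0 := by omega
    rwa [h7, shift, pow_zero, one_smul] at h4
  · intro h1
    exact ⟨0, i, 0, ⟨h0, hi'⟩, le_rfl, by rwa [shift, pow_zero, one_smul]⟩

theorem K2_after {q : Γ} {s : Fin n → Γ} {T : Set X}
    {D : ℕ → Set X} {x : X} (h : Ee s T D x) : ¬ K2 q s T D (q • x) := by
  have h0 := Fe_zero (q := q) h
  rintro ⟨j, i', a, b, ⟨h1, h2⟩, ⟨h3, h4⟩, -⟩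
  have h5 := Fe_unique h1 h0
  omega

theorem K1_step {q : Γ} {s : Fin n → Γ} (hs : ∀ i, Commute q (s i)) {T : Set X}
    (hT : ∀ x, q • x ∈ T ↔ x ∈ T) {D : ℕ → Set X} {x : X} {i : Fin n} (hi : Pt s T i x) {j : ℕ}
    (hj : Fe q s T D j x) (h : ¬ Ee s T D x) :
    K1 q s T D (q • x) ↔ Ee s T D (s i • x) ∨ K1 q s T D x := by
  have h0 := Fe_succ h hj
  have hi' := (Pt_q hs hT i x).mpr hi
  constructor
  · rintro ⟨j', i', a, ⟨h1, h2⟩, h3, h4⟩
    have h5 := Fe_unique h1 h0
    have h6 := Pt_unique h2 hi'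
    subst h5 h6
    rw [shift] at h4
    cases a with
    | zero =>
      left
      rwa [pow_zero, one_smul] at h4
    | succ a => exact Or.inr ⟨j, i', a, ⟨hj, hi⟩, by omega, h4⟩
  · rintro (h1 | ⟨j', i', a, ⟨h1, h2⟩, h3, h4⟩)
    · exact ⟨j + 1, i, 0, ⟨h0, hi'⟩, by omega, by rwa [shift, pow_zero, one_smul]⟩
    · have h5 := Fe_unique h1 hj
      have h6 := Pt_unique h2 hi
      subst h5 h6
      exact ⟨j' + 1, i', a + 1, ⟨h0, hi'⟩, by omega, by rwa [shift]⟩

theorem K2_step {q : Γ} {s : Fin n → Γ} (hs : ∀ i, Commute q (s i)) {T : Set X}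
    (hT : ∀ x, q • x ∈ T ↔ x ∈ T) {D : ℕ → Set X} {x : X} {i : Fin n} (hi : Pt s T i x) {j : ℕ}
    (hj : Fe q s T D j x) (h : ¬ Ee s T D x) :
    K2 q s T D (q • x) ↔ (Ee s T D (s i • x) ∧ K1 q s T D x) ∨ K2 q s T D x := by
  have h0 := Fe_succ h hj
  have hi' := (Pt_q hs hT i x).mpr hi
  constructor
  · rintro ⟨j', i', a, b, ⟨h1, h2⟩, ⟨h3, h3'⟩, h4, h4'⟩
    have h5 := Fe_unique h1 h0
    have h6 := Pt_unique h2 hi'
    subst h5 h6
    rw [shift] at h4 h4'
    obtain ⟨b, rfl⟩ : ∃ c, b = c + 1 := ⟨b - 1, by omega⟩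
    cases a with
    | zero =>
      left
      rw [pow_zero, one_smul] at h4
      exact ⟨h4, j, i', b, ⟨hj, hi⟩, by omega, h4'⟩
    | succ a => exact Or.inr ⟨j, i', a, b, ⟨hj, hi⟩, ⟨by omega, by omega⟩, h4, h4'⟩
  · rintro (⟨h1, j', i', a, ⟨h1', h2⟩, h3, h4⟩ | ⟨j', i', a, b, ⟨h1, h2⟩, ⟨h3, h3'⟩, h4, h4'⟩)
    · have h5 := Fe_unique h1' hj
      have h6 := Pt_unique h2 hi
      subst h5 h6
      exact ⟨j' + 1, i', 0, a + 1, ⟨h0, hi'⟩, ⟨by omega, by omega⟩,
        by rwa [shift, pow_zero, one_smul], by rwa [shift]⟩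
    · have h5 := Fe_unique h1 hj
      have h6 := Pt_unique h2 hi
      subst h5 h6
      exact ⟨j' + 1, i', a + 1, b + 1, ⟨h0, hi'⟩, ⟨by omega, by omega⟩, by rwa [shift],
        by rwa [shift]⟩

theorem K2_K1 {q : Γ} {s : Fin n → Γ} {T : Set X} {D : ℕ → Set X} {x : X}
    (h : K2 q s T D x) : K1 q s T D x := by
  obtain ⟨j, i, a, b, h1, ⟨h2, h3⟩, h4, -⟩ := h
  exact ⟨j, i, a, h1, by omega, h4⟩

/-- the distance of the point after the move -/
theorem Lev_move {s : Fin n → Γ} {T : Set X} {x : X} {i : Fin n} (hi : QQq s T i x) :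
    ∃ l, Lev s T (l + 1) x ∧ Lev s T l (s i • x) := by
  obtain ⟨l, h1, h2⟩ := hi
  refine ⟨l, h1, h2, fun l' hl' h3 => h1.2 (l' + 1) (by omega) ⟨i, h3⟩⟩

/-- full windows before marks -/
theorem K2_mark {q : Γ} {s : Fin n → Γ} (hs : ∀ i, Commute q (s i)) {T : Set X}
    (hT : ∀ x, q • x ∈ T ↔ x ∈ T) {D : ℕ → Set X}
    (hD1 : ∀ l, ∀ x ∈ D l, ∀ j, 0 < j → j < 4 ^ l → q ^ j • x ∉ D l)
    (hD2 : ∀ l x, ∃ j, j < 2 * 4 ^ l ∧ q ^ j • x ∈ D l) {x : X} {i : Fin n} (hi : Pt s T i x)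
    (h : Ee s T D (q • x)) : K2 q s T D (q • x) := by
  obtain ⟨l, hl1, hl2⟩ := Lev_move hi.1
  have hP : Pp s T (q • x) := (Pp_q hs hT x).mpr ⟨_, hl1.1⟩
  obtain ⟨j, hj⟩ := exists_Fe hs hT hD2 hP
  have hi' := (Pt_q hs hT i x).mpr hi
  -- the length of the window
  have hlen : 4 ^ (l + 1) ≤ j + 1 := by
    by_contra hlt
    rw [not_le] at hlt
    have h1 := hj.1
    rw [shift, Ee_of_Lev ((Lev_pow hs hT (l + 1) j x).mpr hl1)] at h1
    rw [Ee_of_Lev ((Lev_q hs hT (l + 1) x).mpr hl1)] at h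
    apply hD1 (l + 1) _ h1 (j + 1) (by omega) hlt
    have h2 : q ^ (j + 1) • q⁻¹ ^ j • x = q • x := by
      rw [smul_smul, pow_succ', mul_assoc, inv_pow, mul_inv_cancel, mul_one]
    rwa [h2]
  have hcomm : ∀ a, s i • q⁻¹ ^ a • x = q⁻¹ ^ a • s i • x := fun a => by
    rw [smul_smul, smul_smul]
    congr 1
    exact ((hs i).inv_left.pow_left a).symm.eq
  obtain ⟨a, ha1, ha2, ha3⟩ := window hs hT (hD2 l) hl2 0
  obtain ⟨b, hb1, hb2, hb3⟩ := window hs hT (hD2 l) hl2 (2 * 4 ^ l)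
  rw [pow_succ] at hlen
  refine ⟨j, i, a, b, ⟨hj, hi'⟩, ⟨by omega, by omega⟩, ?_, ?_⟩
  · rw [shift, hcomm]
    exact ha3
  · rw [shift, hcomm]
    exact hb3

open Classical in
/-- the value of the counter -/
noncomputable def kk (q : Γ) (s : Fin n → Γ) (T : Set X) (D : ℕ → Set X) (x : X) : Fin 3 :=
  if K2 q s T D x then 2 else if K1 q s T D x then 1 else 0

open Classical in
/-- the pointer -/
noncomputable def pt (s : Fin n → Γ) (T : Set X) (x : X) : Option (Fin n) :=
  if h : ∃ i, Pt s T i x then some (Classical.choose h) else none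

theorem pt_some {s : Fin n → Γ} {T : Set X} {x : X} {i : Fin n} :
    pt s T x = some i ↔ Pt s T i x := by
  unfold pt
  constructor
  · intro h
    split_ifs at h with h1
    have h2 := Classical.choose_spec h1
    rw [Option.some.injEq] at h
    rwa [h] at h2
  · intro h
    have h1 : ∃ i, Pt s T i x := ⟨i, h⟩
    rw [dif_pos h1, Option.some.injEq]
    exact Pt_unique (Classical.choose_spec h1) h

theorem pt_none {s : Fin n → Γ} {T : Set X} {x : X} :
    pt s T x = none ↔ ∀ i, ¬ Pt s T i x := by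
  rw [Option.eq_none_iff_forall_ne_some]
  exact forall_congr' fun i => not_congr pt_some

open Classical in
/-- the labels -/
noncomputable def lab (q : Γ) (s : Fin n → Γ) (T : Set X) (D : ℕ → Set X) (x : X) : RL n where
  P := decide (Pp s T x)
  ptr := pt s T x
  E := decide (Ee s T D x)
  e := decide (Oo q s T D x)
  k := kk q s T D x

theorem kk_meas [MeasurableSpace X] (hm : ∀ γ : Γ, Measurable fun x : X => γ • x) (q : Γ)
    (s : Fin n → Γ) (T : Set X) (hT : MeasurableSet T) (D : ℕ → Set X)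
    (hD : ∀ l, MeasurableSet (D l)) (c : Fin 3) : MeasurableSet {x | kk q s T D x = c} := by
  classical
  have h1 : MeasurableSet {x | K1 q s T D x} :=
    measurableSet_setOfPred.mpr (K1_meas hm q s T hT D hD)
  have h2 : MeasurableSet {x | K2 q s T D x} :=
    measurableSet_setOfPred.mpr (K2_meas hm q s T hT D hD)
  have h3 : {x | kk q s T D x = c} = ({x | K2 q s T D x} ∩ {_x | (2 : Fin 3) = c}) ∪
      ({x | K2 q s T D x}ᶜ ∩ (({x | K1 q s T D x} ∩ {_x | (1 : Fin 3) = c}) ∪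
        ({x | K1 q s T D x}ᶜ ∩ {_x | (0 : Fin 3) = c}))) := by
    ext x
    unfold kk
    by_cases g1 : K1 q s T D x <;> by_cases g2 : K2 q s T D x <;> simp [g1, g2]
  rw [h3]
  exact (h2.inter (MeasurableSet.const _)).union (h2.compl.inter
    ((h1.inter (MeasurableSet.const _)).union (h1.compl.inter (MeasurableSet.const _))))

theorem pt_meas [MeasurableSpace X] (hm : ∀ γ : Γ, Measurable fun x : X => γ • x)
    (s : Fin n → Γ) (T : Set X) (hT : MeasurableSet T) (c : Option (Fin n)) :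
    MeasurableSet {x | pt s T x = c} := by
  cases c with
  | none =>
    have h1 : {x | pt s T x = none} = {x | ∀ i, ¬ Pt s T i x} := by
      ext x
      exact pt_none
    rw [h1]
    exact measurableSet_setOfPred.mpr (Measurable.forall fun i => (Pt_meas hm s T hT i).not)
  | some i =>
    have h1 : {x | pt s T x = some i} = {x | Pt s T i x} := by
      ext x
      exact pt_some
    rw [h1]
    exact measurableSet_setOfPred.mpr (Pt_meas hm s T hT i)

end main

/-- a decidable statement as a label -/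
theorem meas_decide {X : Type} [MeasurableSpace X] {p : X → Prop} [∀ x, Decidable (p x)]
    (hp : Measurable p) (b : Bool) : MeasurableSet {x | decide (p x) = b} := by
  have h1 : MeasurableSet {x | p x} := measurableSet_setOfPred.mpr hp
  cases b with
  | true =>
    have h2 : {x | decide (p x) = true} = {x | p x} := by
      ext x
      exact decide_eq_true_iff
    rw [h2]
    exact h1
  | false =>
    have h2 : {x | decide (p x) = false} = {x | p x}ᶜ := by
      ext x
      exact decide_eq_false_iff_not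
    rw [h2]
    exact h1.compl

/-- **RS.** -/
theorem rs : S_RS := by
  classical
  intro Γ _ _ q hq n s hs X _ _ _ hm hfree T hT hTq
  have hmk : ∀ l : ℕ, ∃ D : Set X, MeasurableSet D ∧
      (∀ x ∈ D, ∀ j, 0 < j → j < 4 ^ l → q ^ j • x ∉ D) ∧
        ∀ x, ∃ j, j < 2 * 4 ^ l ∧ q ^ j • x ∈ D :=
    fun l => marker hm hfree q hq (4 ^ l) (by positivity)
  choose D hDm hD1 hD2 using hmk
  refine ⟨lab q s T D, ?_, ?_, ?_⟩
  · intro l
    have h1 : lab q s T D ⁻¹' {l} = {x | decide (Pp s T x) = l.P} ∩ ({x | pt s T x = l.ptr} ∩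
        ({x | decide (Ee s T D x) = l.E} ∩ ({x | decide (Oo q s T D x) = l.e} ∩
          {x | kk q s T D x = l.k}))) := by
      ext x
      rcases l with ⟨a, b, c, d, e⟩
      constructor
      · intro h
        have h2 : lab q s T D x = ⟨a, b, c, d, e⟩ := h
        unfold lab at h2
        rw [RL.mk.injEq] at h2
        exact ⟨h2.1, h2.2.1, h2.2.2.1, h2.2.2.2.1, h2.2.2.2.2⟩
      · rintro ⟨g1, g2, g3, g4, g5⟩
        change lab q s T D x = ⟨a, b, c, d, e⟩
        unfold lab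
        rw [RL.mk.injEq]
        exact ⟨g1, g2, g3, g4, g5⟩
    rw [h1]
    exact (meas_decide (Pp_meas hm s T hT) _).inter ((pt_meas hm s T hT _).inter
      ((meas_decide (Ee_meas hm s T hT D hDm) _).inter
        ((meas_decide (Oo_meas hm q s T hT D hDm) _).inter (kk_meas hm q s T hT D hDm _))))
  · intro x
    refine ⟨?_, ?_, ?_, ?_⟩
    · change decide (Pp s T (q • x)) = decide (Pp s T x)
      exact decide_eq_decide.mpr (Pp_q hs hTq x)
    · change pt s T (q • x) = pt s T x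
      apply Option.ext
      intro i
      rw [pt_some, pt_some]
      exact Pt_q hs hTq i x
    · intro h
      have h1 : ¬ Pp s T x := decide_eq_false_iff_not.mp h
      refine ⟨?_, fun i => ?_⟩
      · rw [decide_eq_false_iff_not]
        exact fun h2 => h1 ⟨0, h2⟩
      · change decide (Pp s T (s i • x)) = false
        rw [decide_eq_false_iff_not]
        rintro ⟨l, hl⟩
        exact h1 ⟨l + 1, i, hl⟩
    · intro h
      have hP : Pp s T x := decide_eq_true_iff.mp h
      refine ⟨?_, ?_, ?_⟩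
      · intro h1
        rw [decide_eq_true_iff]
        have h2 : ∀ i, ¬ Pt s T i x := pt_none.mp h1
        obtain ⟨l, hl⟩ := exists_Lev hP
        cases l with
        | zero => exact hl.1
        | succ l =>
          exfalso
          obtain ⟨i, hi⟩ := hl.1
          obtain ⟨i', hi'⟩ := exists_Pt (x := x) (T := T) (s := s) ⟨i, l, hl, hi⟩
          exact h2 i' hi'
      · intro i h1
        have hi : Pt s T i x := pt_some.mp h1
        obtain ⟨l, hl1, hl2⟩ := Lev_move hi.1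
        refine ⟨?_, ?_, ?_⟩
        · change decide (Pp s T (s i • x)) = true
          rw [decide_eq_true_iff]
          exact ⟨l, hl2.1⟩
        · change kk q s T D (q • x) = cap (if decide (Ee s T D x) = true then 0 else kk q s T D x)
            (decide (Ee s T D (s i • x)))
          by_cases hE : Ee s T D x
          · have k1 := K1_after hs hTq (D := D) hi hE
            have k2 : ¬ K2 q s T D (q • x) := K2_after hE
            unfold kk cap
            rw [if_neg k2]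
            by_cases hE2 : Ee s T D (s i • x)
            · rw [if_pos (k1.mpr hE2)]
              simp [hE, hE2]
            · rw [if_neg (fun h => hE2 (k1.mp h))]
              simp [hE, hE2]
          · obtain ⟨j, hj⟩ := exists_Fe hs hTq hD2 hP
            have k1 := K1_step hs hTq hi hj hE
            have k2 := K2_step hs hTq hi hj hE
            unfold kk cap
            rw [if_neg (show ¬ decide (Ee s T D x) = true by rw [decide_eq_true_iff]; exact hE)]
            by_cases hE2 : Ee s T D (s i • x) <;> by_cases g1 : K1 q s T D x <;>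
              by_cases g2 : K2 q s T D x <;> simp [k1, k2, hE2, g1, g2]
        · intro h2
          have hE : Ee s T D (q • x) := decide_eq_true_iff.mp h2
          have k2 := K2_mark hs hTq hD1 hD2 hi hE
          change kk q s T D (q • x) = 2
          unfold kk
          rw [if_pos k2]
      · intro h1
        have hE : ¬ Ee s T D x := decide_eq_false_iff_not.mp h1
        obtain ⟨j, hj⟩ := exists_Fe hs hTq hD2 hP
        have h2 := Oo_flip hE hj
        change decide (Oo q s T D (q • x)) ≠ decide (Oo q s T D x)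
        rw [Ne, decide_eq_decide, h2]
        exact not_iff_self
  · intro x
    change decide (Pp s T x) = true ↔ _
    rw [decide_eq_true_iff]
    constructor
    · rintro ⟨l, hl⟩
      induction l generalizing x with
      | zero => exact ⟨1, one_mem _, by rw [one_smul]; exact hl⟩
      | succ l ih =>
        obtain ⟨i, hi⟩ := hl
        obtain ⟨m, hm1, hm2⟩ := ih (s i • x) hi
        refine ⟨m * s i, mul_mem hm1 (Submonoid.subset_closure ⟨i, rfl⟩), ?_⟩
        rwa [mul_smul]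
    · rintro ⟨m, hm1, hm2⟩
      have key : ∀ m ∈ Submonoid.closure (Set.range s), ∀ x : X, Pp s T (m • x) → Pp s T x := by
        intro m hm1
        induction hm1 using Submonoid.closure_induction with
        | mem m hm =>
          obtain ⟨i, rfl⟩ := hm
          rintro x ⟨l, hl⟩
          exact ⟨l + 1, i, hl⟩
        | one =>
          intro x hx
          rwa [one_smul] at hx
        | mul a b _ _ ha hb =>
          intro x hx
          rw [mul_smul] at hx
          exact hb x (ha _ hx)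
      exact key m hm1 x ⟨0, hm2⟩

end Pool.Agent.Q210.BH
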